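import Mathlib
import Pool.Agent.Lib.helper12.Idem

namespace Pool.Agent.Results.MP_d2cf4a_al.Dims

open Module Pool.Agent.Lib.helper12.Idem

section defs
variable {K V : Type} [Field K] [AddCommGroup V] [Module K V] {d : ℕ}

/-- `θ` lists the eigenvalues of the diagonalizable map `A` without repetition, and
`B V_i ⊆ V_0 + ... + V_(i+1)` -/
def Hess (A B : Module.End K V) (θ : Fin (d + 1) → K) : Prop :=
  Function.Injective θ ∧ (∀ i, A.eigenspace (θ i) ≠ ⊥) ∧ (⨆ i, A.eigenspace (θ i)) = ⊤ ∧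
    ∀ i, (A.eigenspace (θ i)).map B ≤ ⨆ j, ⨆ (_ : j.val ≤ i.val + 1), A.eigenspace (θ j)

end defs

def A : Matrix (Fin 5) (Fin 5) ℚ :=
  !![1, 0, 0, 0, 0; 0, 0, 0, 0, 0; 2, 0, 0, 0, 0; 0, 0, 2, -1, 0; 0, 2, 0, 0, -1]
def B : Matrix (Fin 5) (Fin 5) ℚ :=
  !![1, 1, 0, 0, 0; 0, 0, 0, 1, 0; 0, 0, 0, 2, 1; 0, 0, 0, -1, 0; 0, 0, 0, 0, -1]
def θ : Fin 3 → ℚ := ![-1, 0, 1]
def φ : Fin 3 → ℚ := ![1, 0, -1]
def E : Fin 3 → Matrix (Fin 5) (Fin 5) ℚ :=
  ![!![0, 0, 0, 0, 0; 0, 0, 0, 0, 0; 0, 0, 0, 0, 0; 2, 0, -2, 1, 0; 0, -2, 0, 0, 1],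
    !![0, 0, 0, 0, 0; 0, 1, 0, 0, 0; -2, 0, 1, 0, 0; -4, 0, 2, 0, 0; 0, 2, 0, 0, 0],
    !![1, 0, 0, 0, 0; 0, 0, 0, 0, 0; 2, 0, 0, 0, 0; 2, 0, 0, 0, 0; 0, 0, 0, 0, 0]]
def F : Fin 3 → Matrix (Fin 5) (Fin 5) ℚ :=
  ![!![1, 1, 0, 1/2, 0; 0, 0, 0, 0, 0; 0, 0, 0, 0, 0; 0, 0, 0, 0, 0; 0, 0, 0, 0, 0],
    !![0, -1, 0, -1, 0; 0, 1, 0, 1, 0; 0, 0, 1, 2, 1; 0, 0, 0, 0, 0; 0, 0, 0, 0, 0],
    !![0, 0, 0, 1/2, 0; 0, 0, 0, -1, 0; 0, 0, 0, -2, -1; 0, 0, 0, 1, 0; 0, 0, 0, 0, 1]]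
def p : Fin 5 → List (ℚ × List Bool) := ![[(1, [])],
    [(3/4, []), (-5/4, [true]), (1/4, [true, true]), (1/4, [false, true, true])],
    [(-1/2, []), (1/2, [true])],
    [(-1/4, [true]), (1/4, [true, true])],
    [(1/2, [true]), (-5/8, [true, true]), (1/8, [true, false, true, true])]]
def q : Fin 5 → List (ℚ × List Bool) := ![[(1/4, [true]), (1/4, [true, true])],
    [(-1/4, [true]), (-1/4, [true, true]), (1/4, [true, false]), (1/4, [true, true, false])],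
    [(1, []), (3/4, [true]), (-1/4, [true, true]), (-1/4, [true, false]),
      (-1/4, [true, true, false])],
    [(2, []), (-1/2, [true, false]), (-1/2, [true, true, false])],
    [(-5, []), (2, [true, false]), (1, [true, true, false])]]
def e : List (ℚ × List Bool) := [(1/2, [false, false]), (1/2, [false])]

theorem okA : ok A θ E := by unfold ok; decide +kernel
theorem okB : ok B φ F := by unfold ok; decide +kernel

theorem result (K : Type) [Field K] [CharZero K] :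
    ∃ (A B : Module.End K (Fin 5 → K)) (θ φ : Fin 3 → K),
      Hess A B θ ∧ Hess B A φ ∧
      (∀ W : Submodule K (Fin 5 → K), W.map A ≤ W → W.map B ≤ W → W = ⊥ ∨ W = ⊤) ∧
      finrank K (A.eigenspace (θ 0)) = 2 ∧ finrank K (B.eigenspace (φ 0)) = 1 := by
  refine ⟨fK K 5 A, fK K 5 B, fun i => (θ i : K), fun i => (φ i : K),
    ⟨inj K okA, ne_bot K okA, sup_top K okA, fun i => ?_⟩,
    ⟨inj K okB, ne_bot K okB, sup_top K okB, fun i => ?_⟩, ?_,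
    rank K okA 0 2 (by decide +kernel), rank K okB 0 1 (by decide +kernel)⟩
  · rw [single_eq K i]
    refine map_le K okA okA _ _ B ?_
    revert i; decide +kernel
  · rw [single_eq K i]
    refine map_le K okB okB _ _ A ?_
    revert i; decide +kernel
  · exact irred K A B p q e (fun i => Matrix.single i 0 1 * F 0) (fun j => Matrix.single 0 j 1)
      (by decide +kernel) (by decide +kernel) (by decide +kernel)

end Pool.Agent.Results.MP_d2cf4a_al.Dims
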